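import Mathlib

/-!
# Contrapositive symmetries: (CP) and (L-CP) imply (R-CP)

Q1 of MP_478a43_lc asks for a fuzzy implication satisfying (CP) and (L-CP) but not (R-CP) with
respect to some fuzzy negation.  There is none:
`I(x, N y) = I(N N y, N x) = I(N N x, N y) = I(y, N x)` by (CP), (L-CP) and (CP).
-/

namespace Pool.Agent.Results.MP_478a43_lc.NoSeparation

open Set

/-- A fuzzy negation. -/
structure IsNegation (N : Icc (0 : ℝ) 1 → Icc (0 : ℝ) 1) : Prop where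
  anti : Antitone N
  zero : N 0 = 1
  one : N 1 = 0

/-- A fuzzy implication. -/
structure IsImplication (I : Icc (0 : ℝ) 1 → Icc (0 : ℝ) 1 → Icc (0 : ℝ) 1) : Prop where
  anti_left : ∀ y, Antitone fun x => I x y
  mono_right : ∀ x, Monotone (I x)
  zero_zero : I 0 0 = 1
  one_one : I 1 1 = 1
  one_zero : I 1 0 = 0

/-- Contrapositive symmetry. -/
def CP (I : Icc (0 : ℝ) 1 → Icc (0 : ℝ) 1 → Icc (0 : ℝ) 1)
    (N : Icc (0 : ℝ) 1 → Icc (0 : ℝ) 1) : Prop := ∀ x y, I x y = I (N y) (N x)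

/-- Left contrapositive symmetry. -/
def LCP (I : Icc (0 : ℝ) 1 → Icc (0 : ℝ) 1 → Icc (0 : ℝ) 1)
    (N : Icc (0 : ℝ) 1 → Icc (0 : ℝ) 1) : Prop := ∀ x y, I (N x) y = I (N y) x

/-- Right contrapositive symmetry. -/
def RCP (I : Icc (0 : ℝ) 1 → Icc (0 : ℝ) 1 → Icc (0 : ℝ) 1)
    (N : Icc (0 : ℝ) 1 → Icc (0 : ℝ) 1) : Prop := ∀ x y, I x (N y) = I y (N x)

/-- No fuzzy implication satisfies (CP) and (L-CP) but not (R-CP) with respect to a fuzzy
negation. -/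
theorem result : ¬ ∃ (I : Icc (0 : ℝ) 1 → Icc (0 : ℝ) 1 → Icc (0 : ℝ) 1)
    (N : Icc (0 : ℝ) 1 → Icc (0 : ℝ) 1),
    IsImplication I ∧ IsNegation N ∧ CP I N ∧ LCP I N ∧ ¬ RCP I N := by
  rintro ⟨I, N, -, -, h1, h2, h3⟩
  refine h3 fun x y => ?_
  rw [h1 x (N y), h2 (N y) (N x), ← h1 y (N x)]

end Pool.Agent.Results.MP_478a43_lc.NoSeparation
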